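import Pool.Agent.Work.MP_ebd967_ag.Rigid

set_option autoImplicit false

namespace Pool.Agent.Work.MP_ebd967_ag

open MvPolynomial

lemma exists_field (m : ℕ) (hm : m ≠ 0) :
    ∃ (K : Type) (_ : Field K) (_ : Fintype K) (_ : CharP K 2) (a : K),
      Fintype.card K = 2 ^ m ∧ orderOf a = 2 ^ m - 1 := by
  classical
  let _ : Fintype (GaloisField 2 m) := Fintype.ofFinite _
  have hcard : Fintype.card (GaloisField 2 m) = 2 ^ m := by
    rw [← Nat.card_eq_fintype_card, GaloisField.card 2 m hm]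
  obtain ⟨g, hg⟩ := IsCyclic.exists_generator (α := (GaloisField 2 m)ˣ)
  refine ⟨GaloisField 2 m, inferInstance, inferInstance, inferInstance, (g : GaloisField 2 m),
    hcard, ?_⟩
  rw [orderOf_units, orderOf_eq_card_of_forall_mem_zpowers hg, Nat.card_eq_fintype_card,
    Fintype.card_units, hcard]

lemma exists_labels (m : ℕ) (hm : 3 ≤ m) (n : ℕ) (hn : n + 4 = 2 ^ m) :
    ∃ (G₀ : Type) (_ : AddCommGroup G₀) (_ : Fintype G₀) (_ : DecidableEq G₀) (v : ℕ → G₀),
      Fintype.card G₀ = 2 ^ m * 4 ∧ Good v n := by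
  classical
  obtain ⟨K, _, _, _, a, hK, ha⟩ := exists_field m (by omega)
  obtain ⟨L, _, _, _, w, hL, hw⟩ := exists_field 2 (by omega)
  have h8 : 8 ≤ 2 ^ m := by
    calc 8 = 2 ^ 3 := by norm_num
      _ ≤ 2 ^ m := Nat.pow_le_pow_right (by norm_num) hm
  have ha0 : a ≠ 0 := by
    rintro rfl
    rw [orderOf_zero] at ha
    omega
  have hw3 : orderOf w = 3 := by rw [hw]; norm_num
  have hw0 : w ≠ 0 := by
    rintro rfl
    rw [orderOf_zero] at hw3
    omega
  have hwsum : 1 + w + w ^ 2 = 0 := by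
    have h1 : w ^ 3 = 1 := by rw [← hw3]; exact pow_orderOf_eq_one w
    have h2 : w ≠ 1 := by
      rintro rfl
      rw [orderOf_one] at hw3
      omega
    have h3 : (w - 1) * (1 + w + w ^ 2) = 0 := by
      have : (w - 1) * (1 + w + w ^ 2) = w ^ 3 - 1 := by ring
      rw [this, h1, sub_self]
    rcases mul_eq_zero.mp h3 with h | h
    · exact absurd (sub_eq_zero.mp h) h2
    · exact h
  have hasum : 1 + a + a ^ 2 ≠ 0 := by
    intro h
    have h1 : a ^ 3 = 1 := by
      have : a ^ 3 - 1 = (a - 1) * (1 + a + a ^ 2) := by ring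
      rw [h, mul_zero, sub_eq_zero] at this
      exact this
    have h2 := orderOf_le_of_pow_eq_one (by norm_num : 0 < 3) h1
    omega
  have hinj : ∀ i j, i ≤ n + 2 → j ≤ n + 2 → a ^ i = a ^ j → i = j := by
    intro i j hi hj hij
    exact pow_injOn_Iio_orderOf (by rw [Set.mem_Iio, ha]; omega)
      (by rw [Set.mem_Iio, ha]; omega) hij
  set v : ℕ → K × L := fun t => (a ^ t, w ^ t) with hv
  have hww : ∀ t, ww v t = (a ^ t * (1 + a + a ^ 2), 0) := by
    intro t
    show ((a ^ t, w ^ t) : K × L) + (a ^ (t + 1), w ^ (t + 1)) + (a ^ (t + 2), w ^ (t + 2)) = _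
    rw [Prod.mk_add_mk, Prod.mk_add_mk, Prod.mk.injEq]
    constructor
    · ring
    · have : w ^ t + w ^ (t + 1) + w ^ (t + 2) = w ^ t * (1 + w + w ^ 2) := by ring
      rw [this, hwsum, mul_zero]
  refine ⟨K × L, inferInstance, inferInstance, inferInstance, v, ?_, ?_⟩
  · rw [Fintype.card_prod, hK, hL]
    norm_num
  · constructor
    · rintro ⟨x, y⟩
      rw [Prod.mk_add_mk, CharTwo.add_self_eq_zero, CharTwo.add_self_eq_zero]
      rfl
    · intro i j hi hj hij
      exact hinj i j hi hj (congrArg Prod.fst hij)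
    · intro i j hi hj hij
      rw [hww, hww] at hij
      have h1 := congrArg Prod.fst hij
      exact hinj i j (by omega) (by omega) (mul_right_cancel₀ hasum h1)
    · intro i j hi hj hij
      rw [hww] at hij
      have h1 := congrArg Prod.snd hij
      exact pow_ne_zero i hw0 h1
    · intro i hi h0
      have h1 := congrArg Prod.fst h0
      exact pow_ne_zero i ha0 h1
    · intro j hj h0
      rw [hww] at h0
      have h1 := congrArg Prod.fst h0
      exact mul_ne_zero (pow_ne_zero j ha0) hasum h1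

lemma two_pow_le_fib (k : ℕ) : 2 ^ k ≤ Nat.fib (2 * k + 1) := by
  induction k with
  | zero => simp
  | succ k ih =>
    have h1 : Nat.fib (2 * (k + 1) + 1) = Nat.fib (2 * k + 1) + Nat.fib (2 * k + 2) := by
      have : 2 * (k + 1) + 1 = (2 * k + 1) + 2 := by ring
      rw [this, Nat.fib_add_two]
    have h2 : Nat.fib (2 * k + 1) ≤ Nat.fib (2 * k + 2) := Nat.fib_mono (by omega)
    rw [h1, pow_succ]
    omega

lemma eval_mono' (Q : Polynomial ℕ) {a b : ℕ} (h : a ≤ b) : Q.eval a ≤ Q.eval b := by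
  rw [Polynomial.eval_eq_sum_range, Polynomial.eval_eq_sum_range]
  exact Finset.sum_le_sum fun i _ => Nat.mul_le_mul_left _ (Nat.pow_le_pow_left h i)

lemma exists_growth (Q : Polynomial ℕ) : ∃ m : ℕ, 3 ≤ m ∧
    Q.eval (32 * (2 ^ (m - 1)) ^ 2) < 2 ^ (2 ^ (m - 1)) := by
  set P : Polynomial ℕ := Q.comp (Polynomial.C 32 * Polynomial.X ^ 2) with hP
  have hPe : ∀ y, P.eval y = Q.eval (32 * y ^ 2) := by
    intro y
    rw [hP, Polynomial.eval_comp]
    simp
  set d := P.natDegree with hd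
  set C : ℕ := ∑ i ∈ Finset.range (d + 1), P.coeff i with hC
  have hbound : ∀ y, 1 ≤ y → P.eval y ≤ C * y ^ d := by
    intro y hy
    rw [Polynomial.eval_eq_sum_range, hC, Finset.sum_mul]
    apply Finset.sum_le_sum
    intro i hi
    apply Nat.mul_le_mul_left
    apply Nat.pow_le_pow_right hy
    rw [Finset.mem_range] at hi
    omega
  have ht := tendsto_pow_const_div_const_pow_of_one_lt d (one_lt_two (α := ℝ))
  have hev : ∀ᶠ y : ℕ in Filter.atTop, (y : ℝ) ^ d / 2 ^ y < 1 / ((C : ℝ) + 1) :=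
    ht.eventually (gt_mem_nhds (by positivity))
  obtain ⟨N, hN⟩ := Filter.eventually_atTop.mp hev
  refine ⟨N + 3, by omega, ?_⟩
  set y := 2 ^ (N + 3 - 1) with hy
  have hyN : N ≤ y := by
    have : N < 2 ^ N := Nat.lt_two_pow_self
    have h2 : 2 ^ N ≤ 2 ^ (N + 3 - 1) := Nat.pow_le_pow_right (by norm_num) (by omega)
    omega
  have hy1 : 1 ≤ y := Nat.one_le_two_pow
  have h1 := hN y hyN
  rw [div_lt_div_iff₀ (by positivity) (by positivity), one_mul] at h1
  have h2 : y ^ d * (C + 1) < 2 ^ y := by exact_mod_cast h1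
  rw [← hPe]
  calc P.eval y ≤ C * y ^ d := hbound y hy1
    _ ≤ y ^ d * (C + 1) := by nlinarith [Nat.zero_le (y ^ d)]
    _ < 2 ^ y := h2

/-- The main combinatorial statement. -/
theorem main (Q : Polynomial ℕ) : ∃ (G : Type) (_ : AddCommGroup G) (_ : Fintype G)
    (T₀ T₁ : Skt G →₀ ℕ), expo ex T₁ = expo ex T₀ ∧ T₁ ≠ T₀ ∧
      (Q.eval (Fintype.card G) < T₀.sum fun _ k => k) ∧
      (∀ T : Skt G →₀ ℕ, expo ex T = expo ex T₀ → T ≠ T₀ → ∀ s, T₀ s = 0 ∨ T s = 0) := by
  obtain ⟨m, hm, hQ⟩ := exists_growth Q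
  have h8 : 8 ≤ 2 ^ m := by
    calc 8 = 2 ^ 3 := by norm_num
      _ ≤ 2 ^ m := Nat.pow_le_pow_right (by norm_num) hm
  obtain ⟨n, hn⟩ : ∃ n, n + 4 = 2 ^ m := ⟨2 ^ m - 4, by omega⟩
  obtain ⟨G₀, _, _, _, v, hcard, hv⟩ := exists_labels m hm n hn
  have hIx : Fintype.card (Ix n) = 2 * n + 5 := by
    simp [Ix]; ring
  obtain ⟨th⟩ : Nonempty (Ix n ≃ ZMod (2 * n + 5)) := by
    apply Fintype.card_eq.mp
    rw [hIx, ZMod.card]
  have hs := ps_eq_qr v n hv.two
  have hpq := p_ne_q hv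
  have hpr := p_ne_r hv
  have hy : 2 ^ m = 2 * 2 ^ (m - 1) := by
    rw [← pow_succ']
    congr 1
    omega
  have hy4 : 4 ≤ 2 ^ (m - 1) := by omega
  refine ⟨G₀ × ZMod (2 * n + 5), inferInstance, inferInstance,
    TT th (pp v n) (qq v n) (rr v n) (xx n) false, TT th (pp v n) (qq v n) (rr v n) (xx n) true,
    ?_, ?_, ?_, ?_⟩
  · exact expo_TT_eq th _ _ _ (ss v n) _ hs (balance v n)
  · intro h
    have h0 : TT th (pp v n) (qq v n) (rr v n) (xx n) false
        (EE th (pp v n) (qq v n) (rr v n) (Sum.inl 0) false true) = 0 := by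
      rw [TT_apply]
      apply Finset.sum_eq_zero
      intro i _
      rw [if_neg, if_neg, add_zero]
      · intro he
        exact absurd (EE_inj th _ _ _ th.injective hpq hpr _ _ _ _ _ _ he).2.1 (by decide)
      · intro he
        exact absurd (EE_inj th _ _ _ th.injective hpq hpr _ _ _ _ _ _ he).2.2 (by decide)
    rw [← h, TT_apply, Finset.sum_eq_zero_iff] at h0
    have h1 := h0 (Sum.inl 0) (Finset.mem_univ _)
    rw [if_pos rfl] at h1
    have h2 : xx n (Sum.inl 0) = 2 * Nat.fib (0 + 1) := rfl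
    rw [h2] at h1
    simp at h1
  · rw [sum_TT_degree]
    have h1 : Fintype.card (G₀ × ZMod (2 * n + 5)) ≤ 32 * (2 ^ (m - 1)) ^ 2 := by
      rw [Fintype.card_prod, hcard, ZMod.card]
      have : n = 2 * 2 ^ (m - 1) - 4 := by omega
      nlinarith
    have h2 := eval_mono' Q h1
    have h3 : 2 ^ (2 ^ (m - 1)) ≤ ∑ i, (xx n i + xx n i) := by
      have h4 := Finset.single_le_sum (f := fun i => xx n i + xx n i)
        (fun i _ => Nat.zero_le _) (Finset.mem_univ (Sum.inl (Fin.last n) : Ix n))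
      refine le_trans ?_ h4
      show 2 ^ (2 ^ (m - 1)) ≤ 2 * Nat.fib (n + 1) + 2 * Nat.fib (n + 1)
      have h5 := two_pow_le_fib (2 ^ (m - 1) - 2)
      have h6 : 2 * (2 ^ (m - 1) - 2) + 1 = n + 1 := by omega
      rw [h6] at h5
      have h7 : 2 ^ (2 ^ (m - 1)) = 4 * 2 ^ (2 ^ (m - 1) - 2) := by
        have : 2 ^ (m - 1) = (2 ^ (m - 1) - 2) + 2 := by omega
        conv_lhs => rw [this]
        rw [pow_add]; ring
      omega
    omega
  · exact fibre th _ _ _ (ss v n) _ th.injective hpq hpr hs (rigid (by omega) hv)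

end Pool.Agent.Work.MP_ebd967_ag
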