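import Pool.Agent.Work.MP_ebd967_ag.Fibre2

set_option autoImplicit false

namespace Pool.Agent.Work.MP_ebd967_ag

open MvPolynomial

/-- Index set of the rectangles: chain rectangles, drains of the fourth vertices, three end
drains. -/
abbrev Ix (n : ℕ) : Type := Fin (n + 1) ⊕ (Fin (n + 1) ⊕ Fin 3)

section Chain

variable {G₀ : Type} [AddCommGroup G₀]

/-- fourth vertex -/
def ww (v : ℕ → G₀) (t : ℕ) : G₀ := v t + v (t + 1) + v (t + 2)

def pp (v : ℕ → G₀) (n : ℕ) : Ix n → G₀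
  | Sum.inl t => v t
  | Sum.inr (Sum.inl _) => 0
  | Sum.inr (Sum.inr 0) => 0
  | Sum.inr (Sum.inr 1) => v (n + 1)
  | Sum.inr (Sum.inr 2) => v (n + 2)

def ss (v : ℕ → G₀) (n : ℕ) : Ix n → G₀
  | Sum.inl t => ww v t
  | Sum.inr (Sum.inl _) => 0
  | Sum.inr (Sum.inr 0) => 0
  | Sum.inr (Sum.inr 1) => v (n + 1)
  | Sum.inr (Sum.inr 2) => v (n + 2)

def qq (v : ℕ → G₀) (n : ℕ) : Ix n → G₀
  | Sum.inl t => v (t + 1)
  | Sum.inr (Sum.inl t) => ww v t
  | Sum.inr (Sum.inr 0) => v 0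
  | Sum.inr (Sum.inr 1) => 0
  | Sum.inr (Sum.inr 2) => 0

def rr (v : ℕ → G₀) (n : ℕ) : Ix n → G₀
  | Sum.inl t => v (t + 2)
  | Sum.inr (Sum.inl t) => ww v t
  | Sum.inr (Sum.inr 0) => v 0
  | Sum.inr (Sum.inr 1) => 0
  | Sum.inr (Sum.inr 2) => 0

def xx (n : ℕ) : Ix n → ℕ
  | Sum.inl t => 2 * Nat.fib (t + 1)
  | Sum.inr (Sum.inl t) => Nat.fib (t + 1)
  | Sum.inr (Sum.inr 0) => 1
  | Sum.inr (Sum.inr 1) => Nat.fib (n + 2)
  | Sum.inr (Sum.inr 2) => Nat.fib (n + 1)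

lemma ps_eq_qr (v : ℕ → G₀) (n : ℕ) (h2 : ∀ g : G₀, g + g = 0) (i : Ix n) :
    pp v n i + ss v n i = qq v n i + rr v n i := by
  rcases i with t | t | t
  · show v t + (v t + v (t + 1) + v (t + 2)) = v (t + 1) + v (t + 2)
    rw [← add_assoc, ← add_assoc, h2, zero_add]
  · show (0 : G₀) + 0 = ww v t + ww v t
    rw [h2, h2]
  · fin_cases t
    · show (0 : G₀) + 0 = v 0 + v 0
      rw [h2, h2]
    · show v (n + 1) + v (n + 1) = 0 + 0
      rw [h2, h2]
    · show v (n + 2) + v (n + 2) = 0 + 0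
      rw [h2, h2]

/-- The distinctness conditions on the labels. -/
structure Good (v : ℕ → G₀) (n : ℕ) : Prop where
  two : ∀ g : G₀, g + g = 0
  vv : ∀ i j, i ≤ n + 2 → j ≤ n + 2 → v i = v j → i = j
  w_w : ∀ i j, i ≤ n → j ≤ n → ww v i = ww v j → i = j
  vw : ∀ i j, i ≤ n + 2 → j ≤ n → v i ≠ ww v j
  v0 : ∀ i, i ≤ n + 2 → v i ≠ 0
  w0 : ∀ j, j ≤ n → ww v j ≠ 0

lemma p_ne_q {v : ℕ → G₀} {n : ℕ} (h : Good v n) (i : Ix n) : pp v n i ≠ qq v n i := by
  rcases i with t | t | t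
  · intro he
    have := h.vv _ _ (by omega) (by omega) he
    omega
  · exact fun he => h.w0 t (by omega) he.symm
  · fin_cases t
    · exact fun he => h.v0 0 (by omega) he.symm
    · exact fun he => h.v0 (n + 1) (by omega) he
    · exact fun he => h.v0 (n + 2) (by omega) he

lemma p_ne_r {v : ℕ → G₀} {n : ℕ} (h : Good v n) (i : Ix n) : pp v n i ≠ rr v n i := by
  rcases i with t | t | t
  · intro he
    have := h.vv _ _ (by omega) (by omega) he
    omega
  · exact fun he => h.w0 t (by omega) he.symm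
  · fin_cases t
    · exact fun he => h.v0 0 (by omega) he.symm
    · exact fun he => h.v0 (n + 1) (by omega) he
    · exact fun he => h.v0 (n + 2) (by omega) he

omit [AddCommGroup G₀] in
/-- telescoping identity behind the balance condition -/
lemma tele (e : G₀ → ℕ) (v : ℕ → G₀) (n : ℕ) :
    (∑ t ∈ Finset.range (n + 1), Nat.fib (t + 1) * (e (v (t + 1)) + e (v (t + 2)))) + e (v 0) =
    (∑ t ∈ Finset.range (n + 1), Nat.fib (t + 1) * e (v t)) + Nat.fib (n + 2) * e (v (n + 1)) +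
      Nat.fib (n + 1) * e (v (n + 2)) := by
  induction n with
  | zero => simp; ring
  | succ n ih =>
    rw [Finset.sum_range_succ, Finset.sum_range_succ _ (n + 1)]
    have h3 : Nat.fib (n + 1 + 2) = Nat.fib (n + 1) + Nat.fib (n + 2) := by
      rw [Nat.fib_add_two]
    rw [h3]
    have e1 : n + 1 + 1 = n + 2 := rfl
    have e2 : n + 1 + 2 = n + 3 := rfl
    simp only [e1, e2] at *
    linarith

lemma tele1 (n : ℕ) :
    (∑ t ∈ Finset.range (n + 1), Nat.fib (t + 1)) + 1 = Nat.fib (n + 2) + Nat.fib (n + 1) := by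
  induction n with
  | zero => simp
  | succ n ih =>
    rw [Finset.sum_range_succ]
    have h3 : Nat.fib (n + 1 + 2) = Nat.fib (n + 1) + Nat.fib (n + 2) := by
      rw [Nat.fib_add_two]
    rw [h3]
    have e1 : n + 1 + 1 = n + 2 := rfl
    simp only [e1] at *
    linarith

lemma sum_Ix (n : ℕ) (f : Ix n → ℕ) : ∑ i, f i =
    ∑ t : Fin (n + 1), f (Sum.inl t) + (∑ t : Fin (n + 1), f (Sum.inr (Sum.inl t)) +
      (f (Sum.inr (Sum.inr 0)) + f (Sum.inr (Sum.inr 1)) + f (Sum.inr (Sum.inr 2)))) := by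
  rw [Fintype.sum_sum_type, Fintype.sum_sum_type, Fin.sum_univ_three]

lemma balance [DecidableEq G₀] (v : ℕ → G₀) (n : ℕ) (a : G₀) :
    (∑ i, ((if qq v n i = a then xx n i else 0) + (if rr v n i = a then xx n i else 0))) =
      ∑ i, ((if pp v n i = a then xx n i else 0) + (if ss v n i = a then xx n i else 0)) := by
  rw [sum_Ix, sum_Ix]
  obtain ⟨e, he⟩ : ∃ e : G₀ → ℕ, ∀ g k, (if g = a then k else 0) = k * e g :=
    ⟨fun g => if g = a then 1 else 0, by intro g k; by_cases h : g = a <;> simp [h]⟩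
  simp only [he]
  simp only [pp, qq, rr, ss, xx]
  have h1 := tele e v n
  have h2 := tele1 n
  rw [Finset.sum_range, Finset.sum_range] at h1
  rw [Finset.sum_range] at h2
  simp only [mul_add, Finset.sum_add_distrib, mul_assoc, ← Finset.mul_sum] at h1 ⊢
  rw [← Finset.sum_mul]
  have h3 := congrArg (fun k => k * e 0) h2
  simp only [add_mul] at h3
  linarith

end Chain

end Pool.Agent.Work.MP_ebd967_ag
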