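import Mathlib

set_option autoImplicit false

namespace Pool.Agent.Work.MP_ebd967_ag

open MvPolynomial

/-! ### A coefficient criterion for non-membership -/

section Crit

variable {σ τ : Type*}

/-- The total exponent vector of a monomial `T` under the monomial map with exponents `e`. -/
noncomputable def expo (e : σ → τ →₀ ℕ) (T : σ →₀ ℕ) : τ →₀ ℕ :=
  T.sum (fun s k => k • e s)

lemma expo_add (e : σ → τ →₀ ℕ) (S T : σ →₀ ℕ) :
    expo e (S + T) = expo e S + expo e T := by
  classical
  unfold expo
  rw [Finsupp.sum_add_index']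
  · intro a; simp
  · intro a b c; exact add_smul _ _ _

lemma aeval_mono (e : σ → τ →₀ ℕ) (f : σ → MvPolynomial τ ℂ)
    (hf : ∀ s, f s = monomial (e s) (1 : ℂ)) (T : σ →₀ ℕ) (c : ℂ) :
    aeval f (monomial T c) = monomial (expo e T) c := by
  rw [aeval_monomial]
  have h1 : (T.prod fun i k => f i ^ k) = monomial (expo e T) (1 : ℂ) := by
    unfold expo Finsupp.prod Finsupp.sum
    rw [monomial_sum_one]
    apply Finset.prod_congr rfl
    intro s _
    show f s ^ T s = monomial (T s • e s) (1 : ℂ)
    rw [hf, monomial_pow, one_pow]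
  rw [h1, algebraMap_eq, C_mul_monomial, mul_one]

open Classical in
lemma coeff_aeval (e : σ → τ →₀ ℕ) (f : σ → MvPolynomial τ ℂ)
    (hf : ∀ s, f s = monomial (e s) (1 : ℂ)) (a : MvPolynomial σ ℂ) (E : τ →₀ ℕ) :
    coeff E (aeval f a) =
      ∑ T ∈ a.support, if expo e T = E then coeff T a else 0 := by
  conv_lhs => rw [a.as_sum]
  rw [map_sum, coeff_sum]
  apply Finset.sum_congr rfl
  intro T _
  rw [aeval_mono e f hf, coeff_monomial]

/-- If every other monomial of the fibre of `T₀` is coprime to `T₀`, and `T₀` has degree more than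
`D`, then the coefficient at `T₀` vanishes on the ideal generated by the elements of degree at
most `D` of the toric ideal. -/
theorem coeff_eq_zero (e : σ → τ →₀ ℕ) (f : σ → MvPolynomial τ ℂ)
    (hf : ∀ s, f s = monomial (e s) (1 : ℂ)) (T₀ : σ →₀ ℕ) (D : ℕ)
    (hD : D < T₀.sum fun _ k => k)
    (hfib : ∀ T : σ →₀ ℕ, expo e T = expo e T₀ → T ≠ T₀ → ∀ s, T₀ s = 0 ∨ T s = 0)
    (p : MvPolynomial σ ℂ)
    (hp : p ∈ Ideal.span {q : MvPolynomial σ ℂ | aeval f q = 0 ∧ q.totalDegree ≤ D}) :
    coeff T₀ p = 0 := by
  classical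
  have key : ∀ a : MvPolynomial σ ℂ, aeval f a = 0 → a.totalDegree ≤ D →
      ∀ M T' : σ →₀ ℕ, M + T' = T₀ → coeff T' a = 0 := by
    intro a ha hdeg M T' hMT
    by_contra hne
    have hsupp : T' ∈ a.support := by rwa [mem_support_iff]
    have hdeg' : (T'.sum fun _ k => k) ≤ D := (le_totalDegree hsupp).trans hdeg
    have hM : M ≠ 0 := by
      rintro rfl
      rw [zero_add] at hMT
      subst hMT
      omega
    obtain ⟨s, hs⟩ : ∃ s, M s ≠ 0 := by
      by_contra hcon
      push Not at hcon
      exact hM (Finsupp.ext hcon)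
    have h0 := coeff_aeval e f hf a (expo e T')
    rw [ha, coeff_zero] at h0
    have h1 : (∑ T ∈ a.support, if expo e T = expo e T' then coeff T a else 0) = coeff T' a := by
      rw [Finset.sum_eq_single T']
      · simp
      · intro T _ hTT'
        rw [if_neg]
        intro hE
        have hfT : expo e (M + T) = expo e T₀ := by
          rw [expo_add, hE, ← expo_add, hMT]
        have hne' : M + T ≠ T₀ := by
          intro h
          apply hTT'
          rw [← hMT] at h
          exact add_left_cancel h
        rcases hfib (M + T) hfT hne' s with h | h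
        · rw [← hMT] at h
          simp at h
          exact hs h.1
        · simp at h
          exact hs h.1
      · intro h
        exact absurd hsupp h
    rw [h1] at h0
    exact hne h0.symm
  have main : ∀ M T' : σ →₀ ℕ, M + T' = T₀ → coeff T' p = 0 := by
    refine Submodule.span_induction
      (p := fun x _ => ∀ M T' : σ →₀ ℕ, M + T' = T₀ → coeff T' x = 0) ?_ ?_ ?_ ?_ hp
    · intro x hx
      exact key x hx.1 hx.2
    · simp
    · intro x y _ _ hx hy M T' h
      rw [coeff_add, hx M T' h, hy M T' h, add_zero]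
    · intro a x _ hx M T' h
      rw [smul_eq_mul, coeff_mul]
      apply Finset.sum_eq_zero
      intro AB hAB
      rw [Finset.HasAntidiagonal.mem_antidiagonal] at hAB
      rw [hx (M + AB.1) AB.2 (by rw [add_assoc, hAB, h]), mul_zero]
  exact main 0 T₀ (zero_add _)

end Crit

end Pool.Agent.Work.MP_ebd967_ag
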