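import Pool.Agent.Work.MP_ebd967_ag.Quad

set_option autoImplicit false

namespace Pool.Agent.Work.MP_ebd967_ag

open MvPolynomial

section Fibre

variable {G₀ F I : Type} [AddCommGroup G₀] [AddCommGroup F] [Fintype G₀] [Fintype F] [Fintype I]
  [DecidableEq G₀] [DecidableEq F]

/-- The two monomials: `w = false` uses the diagonals of all rectangles, `w = true` the
antidiagonals, rectangle `i` being used `x i` times. -/
noncomputable def TT (th : I → F) (p q r : I → G₀) (x : I → ℕ) (w : Bool) :
    Skt (G₀ × F) →₀ ℕ :=
  Finsupp.equivFunOnFinite.symm (fun e => ∑ i,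
    ((if e = EE th p q r i false w then x i else 0) +
      (if e = EE th p q r i true (!w) then x i else 0)))

variable (th : I → F) (p q r s : I → G₀) (x : I → ℕ)

lemma TT_apply (w : Bool) (e : Skt (G₀ × F)) :
    TT th p q r x w e = ∑ i, ((if e = EE th p q r i false w then x i else 0) +
      (if e = EE th p q r i true (!w) then x i else 0)) := rfl

lemma sum_TT [Fintype (Skt (G₀ × F))] (w : Bool) (f : Skt (G₀ × F) → Prop)
    [DecidablePred f] :
    (∑ e, if f e then TT th p q r x w e else 0) =
      ∑ i, ((if f (EE th p q r i false w) then x i else 0) +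
        (if f (EE th p q r i true (!w)) then x i else 0)) := by
  have h1 : ∀ e : Skt (G₀ × F), (if f e then TT th p q r x w e else 0) =
      ∑ i, ((if e = EE th p q r i false w then (if f (EE th p q r i false w) then x i else 0)
          else 0) +
        (if e = EE th p q r i true (!w) then (if f (EE th p q r i true (!w)) then x i else 0)
          else 0)) := by
    intro e
    rw [TT_apply]
    by_cases hf : f e
    · rw [if_pos hf]
      apply Finset.sum_congr rfl
      intro i _
      congr 1
      · by_cases h : e = EE th p q r i false w
        · rw [if_pos h, if_pos h, ← h, if_pos hf]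
        · rw [if_neg h, if_neg h]
      · by_cases h : e = EE th p q r i true (!w)
        · rw [if_pos h, if_pos h, ← h, if_pos hf]
        · rw [if_neg h, if_neg h]
    · rw [if_neg hf]
      symm
      apply Finset.sum_eq_zero
      intro i _
      have e1 : (if e = EE th p q r i false w then
          (if f (EE th p q r i false w) then x i else 0) else 0) = 0 := by
        by_cases h : e = EE th p q r i false w
        · rw [if_pos h, ← h, if_neg hf]
        · rw [if_neg h]
      have e2 : (if e = EE th p q r i true (!w) then
          (if f (EE th p q r i true (!w)) then x i else 0) else 0) = 0 := by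
        by_cases h : e = EE th p q r i true (!w)
        · rw [if_pos h, ← h, if_neg hf]
        · rw [if_neg h]
      rw [e1, e2, add_zero]
  rw [Finset.sum_congr rfl (fun e _ => h1 e), Finset.sum_comm]
  apply Finset.sum_congr rfl
  intro i _
  rw [Finset.sum_add_distrib, Finset.sum_ite_eq', Finset.sum_ite_eq', if_pos (Finset.mem_univ _),
    if_pos (Finset.mem_univ _)]

lemma expo_TT (w : Bool) (j : Fin 3) (g : G₀ × F) :
    expo ex (TT th p q r x w) (j, g) =
      ∑ i, ((if crd j (EE th p q r i false w) = g then x i else 0) +
        (if crd j (EE th p q r i true (!w)) = g then x i else 0)) := by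
  have := Fintype.ofFinite (Skt (G₀ × F))
  rw [expo_apply]
  exact sum_TT th p q r x w (fun e => crd j e = g)

lemma sum_TT_degree (w : Bool) :
    ((TT th p q r x w).sum fun _ k => k) = ∑ i, (x i + x i) := by
  classical
  have := Fintype.ofFinite (Skt (G₀ × F))
  rw [Finsupp.sum_fintype _ _ (by intro i; rfl)]
  have h := sum_TT th p q r x w (fun _ => True)
  simpa using h

/-- The balance condition gives equality of the exponent vectors. -/
lemma expo_TT_eq (hs : ∀ i, p i + s i = q i + r i)
    (hbal : ∀ a : G₀, (∑ i, ((if q i = a then x i else 0) + (if r i = a then x i else 0))) =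
      ∑ i, ((if p i = a then x i else 0) + (if s i = a then x i else 0))) :
    expo ex (TT th p q r x true) = expo ex (TT th p q r x false) := by
  apply expo_ext
  intro j g
  rw [expo_TT, expo_TT]
  fin_cases j
  · obtain ⟨a, f⟩ := g
    have e1 : ∀ i, crd 0 (EE th p q r i false true) = (q i, 0) := crd_zero_ft th p q r
    have e2 : ∀ i, crd 0 (EE th p q r i true false) = (r i, 0) := crd_zero_tf th p q r
    have e3 : ∀ i, crd 0 (EE th p q r i false false) = (p i, 0) := crd_zero_ff th p q r
    have e4 : ∀ i, crd 0 (EE th p q r i true true) = (s i, 0) := crd_zero_tt th p q r s hs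
    simp only [Fin.zero_eta, Bool.not_true, Bool.not_false, e1, e2, e3, e4]
    by_cases hf : (0 : F) = f
    · simpa [Prod.ext_iff, hf] using hbal a
    · simp [Prod.ext_iff, hf]
  · simp [crd_one]
  · simp only [Fin.reduceFinMk, crd_two, Bool.not_true, Bool.not_false]
    apply Finset.sum_congr rfl
    intro i _
    exact add_comm _ _

end Fibre

end Pool.Agent.Work.MP_ebd967_ag
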