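import Pool.Agent.Work.MP_ebd967_ag.Fibre

set_option autoImplicit false

namespace Pool.Agent.Work.MP_ebd967_ag

open MvPolynomial

section Fibre

variable {G₀ F I : Type} [AddCommGroup G₀] [AddCommGroup F] [Fintype G₀] [Fintype F] [Fintype I]
  [DecidableEq G₀] [DecidableEq F]

variable (th : I → F) (p q r s : I → G₀) (x : I → ℕ)

lemma supp_aux (T : Skt (G₀ × F) →₀ ℕ)
    (hT : expo ex T = expo ex (TT th p q r x false)) (e : Skt (G₀ × F)) (he : T e ≠ 0)
    (j : Fin 3) :
    ∃ i, crd j (EE th p q r i false false) = crd j e ∨
      crd j (EE th p q r i true true) = crd j e := by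
  classical
  have := Fintype.ofFinite (Skt (G₀ × F))
  by_contra hcon
  push Not at hcon
  have h1 : expo ex (TT th p q r x false) (j, crd j e) = 0 := by
    rw [expo_TT]
    apply Finset.sum_eq_zero
    intro i _
    rw [if_neg (hcon i).1, Bool.not_false, if_neg (hcon i).2, add_zero]
  rw [← hT, expo_apply, Finset.sum_eq_zero_iff] at h1
  have h2 := h1 e (Finset.mem_univ _)
  rw [if_pos rfl] at h2
  exact he h2

lemma supp_mem (hth : Function.Injective th)
    (hs : ∀ i, p i + s i = q i + r i) (T : Skt (G₀ × F) →₀ ℕ)
    (hT : expo ex T = expo ex (TT th p q r x false)) (e : Skt (G₀ × F)) (he : T e ≠ 0) :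
    ∃ i u v, EE th p q r i u v = e := by
  obtain ⟨i0, h0⟩ := supp_aux th p q r x T hT e he 0
  obtain ⟨i1, h1⟩ := supp_aux th p q r x T hT e he 1
  obtain ⟨i2, h2⟩ := supp_aux th p q r x T hT e he 2
  rw [crd_zero_ff, crd_zero_tt th p q r s hs] at h0
  rw [crd_one, crd_one] at h1
  rw [crd_two, crd_two] at h2
  have h0' : (crd 0 e).2 = 0 := by
    rcases h0 with h | h <;> rw [← h]
  obtain ⟨u, hu⟩ : ∃ u, bb th p r i1 u = crd 1 e := by
    rcases h1 with h | h
    · exact ⟨false, h⟩
    · exact ⟨true, h⟩
  obtain ⟨v, hv⟩ : ∃ v, cc th p q i2 v = crd 2 e := by
    rcases h2 with h | h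
    · exact ⟨false, h⟩
    · exact ⟨true, h⟩
  have hsum : crd 0 e + crd 1 e + crd 2 e = 0 := e.2
  have hsum2 : (crd 0 e).2 + (crd 1 e).2 + (crd 2 e).2 = 0 := congrArg Prod.snd hsum
  rw [h0', ← hu, ← hv] at hsum2
  have hi : i1 = i2 := by
    apply hth
    have h3 : (0 : F) + th i1 + - th i2 = 0 := hsum2
    rw [zero_add, ← sub_eq_add_neg, sub_eq_zero] at h3
    exact h3
  subst hi
  refine ⟨i1, u, v, ?_⟩
  apply skt_ext
  · rw [crd_one, hu]
  · rw [crd_two, hv]

lemma expo_sum (hth : Function.Injective th) (hpq : ∀ i, p i ≠ q i) (hpr : ∀ i, p i ≠ r i)
    (hs : ∀ i, p i + s i = q i + r i) (T : Skt (G₀ × F) →₀ ℕ)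
    (hT : expo ex T = expo ex (TT th p q r x false)) (j : Fin 3) (g : G₀ × F) :
    expo ex T (j, g) = ∑ i : I, ∑ u : Bool, ∑ v : Bool,
      if crd j (EE th p q r i u v) = g then T (EE th p q r i u v) else 0 := by
  have := Fintype.ofFinite (Skt (G₀ × F))
  rw [expo_apply]
  symm
  have h := Fintype.sum_of_injective
    (fun k : I × Bool × Bool => EE th p q r k.1 k.2.1 k.2.2)
    (by
      intro k k' hk
      have := EE_inj th p q r hth hpq hpr _ _ _ _ _ _ hk
      exact Prod.ext this.1 (Prod.ext this.2.1 this.2.2))
    (fun k => if crd j (EE th p q r k.1 k.2.1 k.2.2) = g then T (EE th p q r k.1 k.2.1 k.2.2)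
      else 0)
    (fun e => if crd j e = g then T e else 0)
    (by
      intro e he
      have : T e = 0 := by
        by_contra hne
        obtain ⟨i, u, v, h⟩ := supp_mem th p q r s x hth hs T hT e hne
        exact he ⟨(i, u, v), h⟩
      simp [this])
    (by intro k; rfl)
  rw [← h, Fintype.sum_prod_type]
  apply Finset.sum_congr rfl
  intro i _
  rw [Fintype.sum_prod_type]

theorem fibre (hth : Function.Injective th) (hpq : ∀ i, p i ≠ q i) (hpr : ∀ i, p i ≠ r i)
    (hs : ∀ i, p i + s i = q i + r i)
    (hrig : ∀ z : I → ℕ, (∀ i, z i ≤ x i) →
      (∀ a : G₀, (∑ i, ((if q i = a then z i else 0) + (if r i = a then z i else 0))) =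
        ∑ i, ((if p i = a then z i else 0) + (if s i = a then z i else 0))) →
      (∀ i, z i = 0) ∨ (∀ i, z i = x i))
    (T : Skt (G₀ × F) →₀ ℕ) (hT : expo ex T = expo ex (TT th p q r x false))
    (hne : T ≠ TT th p q r x false) : ∀ e, TT th p q r x false e = 0 ∨ T e = 0 := by
  have hrow : ∀ i u, T (EE th p q r i u false) + T (EE th p q r i u true) = x i := by
    intro i u
    have h1 := expo_sum th p q r s x hth hpq hpr hs T hT 1 (bb th p r i u)
    rw [hT, expo_TT] at h1
    simp only [crd_one, Bool.not_false] at h1
    rw [Fintype.sum_eq_single i, Fintype.sum_eq_single i] at h1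
    · cases u
      · have hne' : bb th p r i true ≠ bb th p r i false := by
          intro h
          exact absurd (bb_inj th p r hth hpr _ _ _ _ h).2 (by decide)
        simp [hne'] at h1
        rw [h1]; ring
      · have hne' : bb th p r i false ≠ bb th p r i true := by
          intro h
          exact absurd (bb_inj th p r hth hpr _ _ _ _ h).2 (by decide)
        simp [hne'] at h1
        rw [h1]; ring
    · intro i' hi'
      apply Finset.sum_eq_zero
      intro u' _
      apply Finset.sum_eq_zero
      intro v' _
      rw [if_neg]
      intro h
      exact hi' (bb_inj th p r hth hpr _ _ _ _ h).1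
    · intro i' hi'
      rw [if_neg (fun h => hi' (bb_inj th p r hth hpr _ _ _ _ h).1),
        if_neg (fun h => hi' (bb_inj th p r hth hpr _ _ _ _ h).1), add_zero]
  have hcol : ∀ i v, T (EE th p q r i false v) + T (EE th p q r i true v) = x i := by
    intro i v
    have h1 := expo_sum th p q r s x hth hpq hpr hs T hT 2 (cc th p q i v)
    rw [hT, expo_TT] at h1
    simp only [crd_two, Bool.not_false] at h1
    rw [Fintype.sum_eq_single i, Fintype.sum_eq_single i] at h1
    · cases v
      · have hne' : cc th p q i true ≠ cc th p q i false := by
          intro h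
          exact absurd (cc_inj th p q hth hpq _ _ _ _ h).2 (by decide)
        simp [hne'] at h1
        rw [h1]; ring
      · have hne' : cc th p q i false ≠ cc th p q i true := by
          intro h
          exact absurd (cc_inj th p q hth hpq _ _ _ _ h).2 (by decide)
        simp [hne'] at h1
        rw [h1]; ring
    · intro i' hi'
      apply Finset.sum_eq_zero
      intro u' _
      apply Finset.sum_eq_zero
      intro v' _
      rw [if_neg]
      intro h
      exact hi' (cc_inj th p q hth hpq _ _ _ _ h).1
    · intro i' hi'
      rw [if_neg (fun h => hi' (cc_inj th p q hth hpq _ _ _ _ h).1),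
        if_neg (fun h => hi' (cc_inj th p q hth hpq _ _ _ _ h).1), add_zero]
  have hz := hrig (fun i => T (EE th p q r i false true)) ?_ ?_
  · rcases hz with hz | hz
    · exfalso
      apply hne
      ext e
      by_cases he : ∃ i u v, EE th p q r i u v = e
      · obtain ⟨i, u, v, rfl⟩ := he
        have hval : TT th p q r x false (EE th p q r i u v) = if u = v then x i else 0 := by
          rw [TT_apply, Fintype.sum_eq_single i]
          · cases u <;> cases v
            · have h1 : EE th p q r i false false ≠ EE th p q r i true true := by
                intro h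
                exact absurd (EE_inj th p q r hth hpq hpr _ _ _ _ _ _ h).2.1 (by decide)
              simp [h1]
            · have h1 : EE th p q r i false true ≠ EE th p q r i true true := by
                intro h
                exact absurd (EE_inj th p q r hth hpq hpr _ _ _ _ _ _ h).2.1 (by decide)
              have h2 : EE th p q r i false true ≠ EE th p q r i false false := by
                intro h
                exact absurd (EE_inj th p q r hth hpq hpr _ _ _ _ _ _ h).2.2 (by decide)
              simp [h1, h2]
            · have h1 : EE th p q r i true false ≠ EE th p q r i true true := by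
                intro h
                exact absurd (EE_inj th p q r hth hpq hpr _ _ _ _ _ _ h).2.2 (by decide)
              have h2 : EE th p q r i true false ≠ EE th p q r i false false := by
                intro h
                exact absurd (EE_inj th p q r hth hpq hpr _ _ _ _ _ _ h).2.1 (by decide)
              simp [h1, h2]
            · have h1 : EE th p q r i true true ≠ EE th p q r i false false := by
                intro h
                exact absurd (EE_inj th p q r hth hpq hpr _ _ _ _ _ _ h).2.1 (by decide)
              simp [h1]
          · intro i' hi'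
            rw [if_neg (fun h => hi' (EE_inj th p q r hth hpq hpr _ _ _ _ _ _ h).1.symm),
              if_neg (fun h => hi' (EE_inj th p q r hth hpq hpr _ _ _ _ _ _ h).1.symm), add_zero]
        rw [hval]
        have a1 := hrow i false
        have a2 := hrow i true
        have a3 := hcol i false
        have a4 := hcol i true
        have a5 := hz i
        cases u <;> cases v <;> simp at * <;> omega
      · have h1 : T e = 0 := by
          by_contra hne'
          exact he (supp_mem th p q r s x hth hs T hT e hne')
        rw [h1, TT_apply]
        symm
        apply Finset.sum_eq_zero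
        intro i _
        rw [if_neg (fun h => he ⟨i, _, _, h.symm⟩), if_neg (fun h => he ⟨i, _, _, h.symm⟩),
          add_zero]
    · intro e
      by_cases h0 : TT th p q r x false e = 0
      · exact Or.inl h0
      · right
        rw [TT_apply] at h0
        obtain ⟨i, _, hi⟩ := Finset.exists_ne_zero_of_sum_ne_zero h0
        have a1 := hrow i false
        have a2 := hrow i true
        have a3 := hcol i false
        have a4 := hcol i true
        have a5 := hz i
        by_cases h1 : e = EE th p q r i false false
        · rw [h1]; omega
        · by_cases h2 : e = EE th p q r i true true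
          · rw [h2]; omega
          · exfalso
            apply hi
            rw [if_neg h1, Bool.not_false, if_neg h2, add_zero]
  · intro i
    have := hrow i false
    omega
  · intro a
    have h1 := expo_sum th p q r s x hth hpq hpr hs T hT 0 (a, 0)
    rw [hT, expo_TT] at h1
    simp only [Fintype.sum_bool, Bool.not_false, crd_zero_ff, crd_zero_ft, crd_zero_tf,
      crd_zero_tt th p q r s hs, Prod.mk.injEq, and_true] at h1
    have h2 : ∀ i, (if p i = a then x i else 0) =
        (if p i = a then T (EE th p q r i false false) else 0) +
        (if p i = a then T (EE th p q r i false true) else 0) := by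
      intro i
      have := hrow i false
      split_ifs <;> omega
    have h3 : ∀ i, (if s i = a then x i else 0) =
        (if s i = a then T (EE th p q r i true true) else 0) +
        (if s i = a then T (EE th p q r i false true) else 0) := by
      intro i
      have a1 := hrow i false
      have a2 := hrow i true
      have a3 := hcol i false
      have a4 := hcol i true
      split_ifs <;> omega
    have h4 : ∀ i, (if r i = a then T (EE th p q r i true false) else 0) =
        (if r i = a then T (EE th p q r i false true) else 0) := by
      intro i
      have a1 := hrow i false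
      have a2 := hrow i true
      have a3 := hcol i false
      have a4 := hcol i true
      split_ifs <;> omega
    simp only [h2, h3, h4, Finset.sum_add_distrib] at h1 ⊢
    omega

end Fibre

end Pool.Agent.Work.MP_ebd967_ag
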