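import Pool.Agent.Work.MP_ebd967_ag.Crit

set_option autoImplicit false

namespace Pool.Agent.Work.MP_ebd967_ag

open MvPolynomial

/-- Sockets of the three-leaf claw tree. -/
abbrev Skt (G : Type) [AddCommGroup G] : Type := {g : G × G × G // g.1 + g.2.1 + g.2.2 = 0}

/-- Exponent vector of the monomial attached to a socket. -/
noncomputable def ex {G : Type} [AddCommGroup G] (s : Skt G) : (Fin 3 × G) →₀ ℕ :=
  Finsupp.single ((0 : Fin 3), s.1.1) 1 + Finsupp.single ((1 : Fin 3), s.1.2.1) 1 +
    Finsupp.single ((2 : Fin 3), s.1.2.2) 1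

/-- The three coordinates of a socket. -/
def crd {G : Type} [AddCommGroup G] (j : Fin 3) (s : Skt G) : G :=
  if j = 0 then s.1.1 else if j = 1 then s.1.2.1 else s.1.2.2

lemma ex_apply {G : Type} [AddCommGroup G] [DecidableEq G] (s : Skt G) (j : Fin 3) (g : G) :
    ex s (j, g) = if crd j s = g then 1 else 0 := by
  unfold ex crd
  fin_cases j <;> simp [Finsupp.single_apply, Prod.ext_iff]

lemma expo_apply {G : Type} [AddCommGroup G] [DecidableEq G] [Fintype (Skt G)] (T : Skt G →₀ ℕ) (j : Fin 3) (g : G) :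
    expo ex T (j, g) = ∑ s : Skt G, if crd j s = g then T s else 0 := by
  unfold expo
  rw [Finsupp.sum_fintype _ _ (by intro i; simp), Finsupp.finsetSum_apply]
  apply Finset.sum_congr rfl
  intro s _
  rw [Finsupp.smul_apply, ex_apply]
  split_ifs <;> simp

lemma expo_ext {G : Type} [AddCommGroup G] (S T : Skt G →₀ ℕ)
    (h : ∀ j g, expo ex S (j, g) = expo ex T (j, g)) : expo ex S = expo ex T := by
  ext ⟨j, g⟩
  exact h j g

section System

variable {G₀ F I : Type} [AddCommGroup G₀] [AddCommGroup F]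

/-- Second coordinates. -/
def bb (th : I → F) (p r : I → G₀) (i : I) (u : Bool) : G₀ × F :=
  (if u then p i - r i else 0, th i)

/-- Third coordinates. -/
def cc (th : I → F) (p q : I → G₀) (i : I) (u : Bool) : G₀ × F :=
  (if u then - q i else - p i, - th i)

/-- The four sockets of the rectangle number `i`. -/
def EE (th : I → F) (p q r : I → G₀) (i : I) (u v : Bool) : Skt (G₀ × F) :=
  ⟨(- bb th p r i u - cc th p q i v, bb th p r i u, cc th p q i v), by
    show - bb th p r i u - cc th p q i v + bb th p r i u + cc th p q i v = 0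
    rw [sub_add_eq_add_sub, neg_add_cancel, zero_sub, neg_add_cancel]⟩

variable (th : I → F) (p q r s : I → G₀)

lemma crd_one (i : I) (u v : Bool) : crd 1 (EE th p q r i u v) = bb th p r i u := by
  simp [crd, EE]

lemma crd_two (i : I) (u v : Bool) : crd 2 (EE th p q r i u v) = cc th p q i v := by
  simp [crd, EE]

lemma crd_zero_ff (i : I) : crd 0 (EE th p q r i false false) = (p i, 0) := by
  simp [crd, EE, bb, cc]

lemma crd_zero_ft (i : I) : crd 0 (EE th p q r i false true) = (q i, 0) := by
  simp [crd, EE, bb, cc]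

lemma crd_zero_tf (i : I) : crd 0 (EE th p q r i true false) = (r i, 0) := by
  simp [crd, EE, bb, cc]

lemma crd_zero_tt (hs : ∀ i, p i + s i = q i + r i) (i : I) :
    crd 0 (EE th p q r i true true) = (s i, 0) := by
  have h := hs i
  have h2 : r i - p i + q i = s i := by
    have : s i = q i + r i - p i := by rw [← h]; abel
    rw [this]; abel
  simp [crd, EE, bb, cc, h2]

omit [AddCommGroup F] in
lemma bb_inj (hth : Function.Injective th) (hpr : ∀ i, p i ≠ r i) (i j : I) (u v : Bool)
    (h : bb th p r i u = bb th p r j v) : i = j ∧ u = v := by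
  unfold bb at h
  rw [Prod.mk.injEq] at h
  have hij := hth h.2
  subst hij
  refine ⟨rfl, ?_⟩
  have h1 := h.1
  have hne : p i - r i ≠ 0 := sub_ne_zero.mpr (hpr i)
  cases u <;> cases v <;> simp_all

lemma cc_inj (hth : Function.Injective th) (hpq : ∀ i, p i ≠ q i) (i j : I) (u v : Bool)
    (h : cc th p q i u = cc th p q j v) : i = j ∧ u = v := by
  unfold cc at h
  rw [Prod.mk.injEq] at h
  have hij := hth (neg_injective h.2)
  subst hij
  refine ⟨rfl, ?_⟩
  have h1 := h.1
  have hne := hpq i
  cases u <;> cases v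
  · rfl
  · exact absurd (neg_injective h1) hne
  · exact absurd (neg_injective h1).symm hne
  · rfl

lemma skt_ext {G : Type} [AddCommGroup G] (e f : Skt G) (h1 : crd 1 e = crd 1 f)
    (h2 : crd 2 e = crd 2 f) : e = f := by
  obtain ⟨⟨a, b, c⟩, h⟩ := e
  obtain ⟨⟨a', b', c'⟩, h'⟩ := f
  simp [crd] at h1 h2 h h'
  subst h1 h2
  have : a = a' := by
    have h3 : a + b + c = a' + b + c := by rw [h, h']
    exact add_right_cancel (add_right_cancel h3)
  subst this
  rfl

lemma EE_inj (hth : Function.Injective th) (hpq : ∀ i, p i ≠ q i) (hpr : ∀ i, p i ≠ r i)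
    (i j : I) (u v u' v' : Bool)
    (h : EE th p q r i u v = EE th p q r j u' v') : i = j ∧ u = u' ∧ v = v' := by
  have h1 := congrArg (crd 1) h
  have h2 := congrArg (crd 2) h
  rw [crd_one, crd_one] at h1
  rw [crd_two, crd_two] at h2
  have h3 := bb_inj th p r hth hpr _ _ _ _ h1
  have h4 := cc_inj th p q hth hpq _ _ _ _ h2
  exact ⟨h3.1, h3.2, h4.2⟩

end System

end Pool.Agent.Work.MP_ebd967_ag
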