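import Pool.Agent.Work.MP_ebd967_ag.Chain

set_option autoImplicit false

namespace Pool.Agent.Work.MP_ebd967_ag

section Rigid

variable {G₀ : Type} [AddCommGroup G₀] [DecidableEq G₀]

omit [AddCommGroup G₀] in
lemma pick (u : ℕ → G₀) (a : G₀) (c : ℕ → ℕ) (n t0 : ℕ) (ht0 : t0 < n + 1)
    (h0 : u t0 = a) (h : ∀ t, t < n + 1 → u t = a → t = t0) :
    (∑ t : Fin (n + 1), if u t = a then c t else 0) = c t0 := by
  rw [Fintype.sum_eq_single (⟨t0, ht0⟩ : Fin (n + 1))]
  · simp [h0]
  · intro t ht
    rw [if_neg]
    intro he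
    exact ht (Fin.ext (h t t.2 he))

omit [AddCommGroup G₀] in
lemma pick_none (u : ℕ → G₀) (a : G₀) (c : ℕ → ℕ) (n : ℕ)
    (h : ∀ t, t < n + 1 → u t ≠ a) :
    (∑ t : Fin (n + 1), if u t = a then c t else 0) = 0 := by
  apply Finset.sum_eq_zero
  intro t _
  rw [if_neg (h t t.2)]

lemma extend_fn (n : ℕ) (f : Fin (n + 1) → ℕ) : ∃ c : ℕ → ℕ, ∀ t : Fin (n + 1), f t = c t := by
  refine ⟨fun k => if hk : k < n + 1 then f ⟨k, hk⟩ else 0, ?_⟩
  intro t
  have h : (t : ℕ) < n + 1 := t.2
  simp only [h, dif_pos, Fin.eta]

theorem rigid {v : ℕ → G₀} {n : ℕ} (hn : 1 ≤ n) (h : Good v n) (z : Ix n → ℕ)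
    (hz : ∀ i, z i ≤ xx n i)
    (heq : ∀ a : G₀,
      (∑ i, ((if qq v n i = a then z i else 0) + (if rr v n i = a then z i else 0))) =
        ∑ i, ((if pp v n i = a then z i else 0) + (if ss v n i = a then z i else 0))) :
    (∀ i, z i = 0) ∨ (∀ i, z i = xx n i) := by
  obtain ⟨c, hc⟩ := extend_fn n (fun t => z (Sum.inl t))
  obtain ⟨d, hd⟩ := extend_fn n (fun t => z (Sum.inr (Sum.inl t)))
  obtain ⟨z0, hz0⟩ : ∃ z0, z (Sum.inr (Sum.inr 0)) = z0 := ⟨_, rfl⟩
  obtain ⟨z1, hz1⟩ : ∃ z1, z (Sum.inr (Sum.inr 1)) = z1 := ⟨_, rfl⟩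
  obtain ⟨z2, hz2⟩ : ∃ z2, z (Sum.inr (Sum.inr 2)) = z2 := ⟨_, rfl⟩
  have E : ∀ a : G₀, a ≠ 0 →
      (∑ t : Fin (n + 1), if v (t + 1) = a then c t else 0) +
      (∑ t : Fin (n + 1), if v (t + 2) = a then c t else 0) +
      ((∑ t : Fin (n + 1), if ww v t = a then d t else 0) +
      (∑ t : Fin (n + 1), if ww v t = a then d t else 0)) +
      ((if v 0 = a then z0 else 0) + (if v 0 = a then z0 else 0)) =
      (∑ t : Fin (n + 1), if v t = a then c t else 0) +
      (∑ t : Fin (n + 1), if ww v t = a then c t else 0) +
      ((if v (n + 1) = a then z1 else 0) + (if v (n + 1) = a then z1 else 0)) +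
      ((if v (n + 2) = a then z2 else 0) + (if v (n + 2) = a then z2 else 0)) := by
    intro a ha
    have h1 := heq a
    rw [sum_Ix, sum_Ix] at h1
    obtain ⟨e, he, he0⟩ : ∃ e : G₀ → ℕ, (∀ g k, (if g = a then k else 0) = k * e g) ∧ e 0 = 0 :=
      ⟨fun g => if g = a then 1 else 0, by intro g k; by_cases h : g = a <;> simp [h],
        if_neg ha.symm⟩
    simp only [hc, hd, hz0, hz1, hz2, Finset.sum_add_distrib, he] at h1 ⊢
    simp only [pp, qq, rr, ss, he0, mul_zero, Finset.sum_const_zero, add_zero, zero_add] at h1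
    simp only [add_assoc] at h1 ⊢
    exact h1
  have vv : ∀ i j, i ≤ n + 2 → j ≤ n + 2 → i ≠ j → ¬ (v i = v j) := by
    intro i j hi hj hij he
    exact hij (h.vv i j hi hj he)
  -- the vertex `v 0`
  have E0 : c 0 = z0 + z0 := by
    have h1 := E (v 0) (h.v0 0 (by omega))
    rw [pick_none (fun t => v (t + 1)) (v 0) c n (fun t ht => vv _ _ (by omega) (by omega)
        (by omega)),
      pick_none (fun t => v (t + 2)) (v 0) c n (fun t ht => vv _ _ (by omega) (by omega)
        (by omega)),
      pick_none (fun t => ww v t) (v 0) d n (fun t ht he => h.vw _ _ (by omega) (by omega)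
        he.symm),
      pick_none (fun t => ww v t) (v 0) c n (fun t ht he => h.vw _ _ (by omega) (by omega)
        he.symm),
      pick (fun t => v t) (v 0) c n 0 (by omega) rfl (fun t ht he => h.vv _ _ (by omega)
        (by omega) he),
      if_pos rfl, if_neg (vv (n + 1) 0 (by omega) (by omega) (by omega)),
      if_neg (vv (n + 2) 0 (by omega) (by omega) (by omega))] at h1
    omega
  -- the vertex `v 1`
  have E1 : c 1 = c 0 := by
    have h1 := E (v 1) (h.v0 1 (by omega))
    rw [pick (fun t => v (t + 1)) (v 1) c n 0 (by omega) rfl (fun t ht he => by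
        have := h.vv _ _ (by omega) (by omega) he; omega),
      pick_none (fun t => v (t + 2)) (v 1) c n (fun t ht => vv _ _ (by omega) (by omega)
        (by omega)),
      pick_none (fun t => ww v t) (v 1) d n (fun t ht he => h.vw _ _ (by omega) (by omega)
        he.symm),
      pick_none (fun t => ww v t) (v 1) c n (fun t ht he => h.vw _ _ (by omega) (by omega)
        he.symm),
      pick (fun t => v t) (v 1) c n 1 (by omega) rfl (fun t ht he => h.vv _ _ (by omega)
        (by omega) he),
      if_neg (vv 0 1 (by omega) (by omega) (by omega)),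
      if_neg (vv (n + 1) 1 (by omega) (by omega) (by omega)),
      if_neg (vv (n + 2) 1 (by omega) (by omega) (by omega))] at h1
    omega
  -- the interior vertices
  have Ek : ∀ k, k + 2 ≤ n → c (k + 2) = c k + c (k + 1) := by
    intro k hk
    have h1 := E (v (k + 2)) (h.v0 (k + 2) (by omega))
    rw [pick (fun t => v (t + 1)) (v (k + 2)) c n (k + 1) (by omega) rfl (fun t ht he => by
        have := h.vv _ _ (by omega) (by omega) he; omega),
      pick (fun t => v (t + 2)) (v (k + 2)) c n k (by omega) rfl (fun t ht he => by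
        have := h.vv _ _ (by omega) (by omega) he; omega),
      pick_none (fun t => ww v t) (v (k + 2)) d n (fun t ht he => h.vw _ _ (by omega) (by omega)
        he.symm),
      pick_none (fun t => ww v t) (v (k + 2)) c n (fun t ht he => h.vw _ _ (by omega) (by omega)
        he.symm),
      pick (fun t => v t) (v (k + 2)) c n (k + 2) (by omega) rfl (fun t ht he => h.vv _ _
        (by omega) (by omega) he),
      if_neg (vv 0 (k + 2) (by omega) (by omega) (by omega)),
      if_neg (vv (n + 1) (k + 2) (by omega) (by omega) (by omega)),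
      if_neg (vv (n + 2) (k + 2) (by omega) (by omega) (by omega))] at h1
    omega
  -- the last two vertices of the chain
  have En1 : c n + c (n - 1) = z1 + z1 := by
    have h1 := E (v (n + 1)) (h.v0 (n + 1) (by omega))
    rw [pick (fun t => v (t + 1)) (v (n + 1)) c n n (by omega) rfl (fun t ht he => by
        have := h.vv _ _ (by omega) (by omega) he; omega),
      pick (fun t => v (t + 2)) (v (n + 1)) c n (n - 1) (by omega)
        (by show v (n - 1 + 2) = v (n + 1); congr 1; omega) (fun t ht he => by
        have := h.vv _ _ (by omega) (by omega) he; omega),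
      pick_none (fun t => ww v t) (v (n + 1)) d n (fun t ht he => h.vw _ _ (by omega) (by omega)
        he.symm),
      pick_none (fun t => ww v t) (v (n + 1)) c n (fun t ht he => h.vw _ _ (by omega) (by omega)
        he.symm),
      pick_none (fun t => v t) (v (n + 1)) c n (fun t ht => vv _ _ (by omega) (by omega)
        (by omega)),
      if_neg (vv 0 (n + 1) (by omega) (by omega) (by omega)),
      if_pos rfl,
      if_neg (vv (n + 2) (n + 1) (by omega) (by omega) (by omega))] at h1
    omega
  have En2 : c n = z2 + z2 := by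
    have h1 := E (v (n + 2)) (h.v0 (n + 2) (by omega))
    rw [pick_none (fun t => v (t + 1)) (v (n + 2)) c n (fun t ht => vv _ _ (by omega) (by omega)
        (by omega)),
      pick (fun t => v (t + 2)) (v (n + 2)) c n n (by omega) rfl (fun t ht he => by
        have := h.vv _ _ (by omega) (by omega) he; omega),
      pick_none (fun t => ww v t) (v (n + 2)) d n (fun t ht he => h.vw _ _ (by omega) (by omega)
        he.symm),
      pick_none (fun t => ww v t) (v (n + 2)) c n (fun t ht he => h.vw _ _ (by omega) (by omega)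
        he.symm),
      pick_none (fun t => v t) (v (n + 2)) c n (fun t ht => vv _ _ (by omega) (by omega)
        (by omega)),
      if_neg (vv 0 (n + 2) (by omega) (by omega) (by omega)),
      if_neg (vv (n + 1) (n + 2) (by omega) (by omega) (by omega)),
      if_pos rfl] at h1
    omega
  -- the fourth vertices
  have Ew : ∀ k, k ≤ n → c k = d k + d k := by
    intro k hk
    have h1 := E (ww v k) (h.w0 k hk)
    rw [pick_none (fun t => v (t + 1)) (ww v k) c n (fun t ht => h.vw _ _ (by omega)
        (by omega)),
      pick_none (fun t => v (t + 2)) (ww v k) c n (fun t ht => h.vw _ _ (by omega) (by omega)),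
      pick (fun t => ww v t) (ww v k) d n k (by omega) rfl (fun t ht he => h.w_w _ _ (by omega)
        (by omega) he),
      pick (fun t => ww v t) (ww v k) c n k (by omega) rfl (fun t ht he => h.w_w _ _ (by omega)
        (by omega) he),
      pick_none (fun t => v t) (ww v k) c n (fun t ht => h.vw _ _ (by omega) (by omega)),
      if_neg (h.vw 0 k (by omega) (by omega)),
      if_neg (h.vw (n + 1) k (by omega) (by omega)),
      if_neg (h.vw (n + 2) k (by omega) (by omega))] at h1
    omega
  have Hc : ∀ k, k ≤ n → c k = (z0 + z0) * Nat.fib (k + 1) := by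
    intro k
    induction k using Nat.twoStepInduction with
    | zero => intro _; simpa using E0
    | one => intro _; rw [E1, E0]; simp
    | more k ih1 ih2 =>
      intro hk
      rw [Ek k hk, ih1 (by omega), ih2 (by omega), ← mul_add]
      congr 1
      have : k + 2 + 1 = (k + 1) + 2 := by omega
      rw [this, Nat.fib_add_two (n := k + 1)]
  have hz0le : z0 ≤ 1 := by
    have := hz (Sum.inr (Sum.inr 0))
    rw [hz0] at this
    exact this
  have hfib : Nat.fib (n + 2) = Nat.fib n + Nat.fib (n + 1) := Nat.fib_add_two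
  have hcn := Hc n le_rfl
  have hcn1 := Hc (n - 1) (by omega)
  have hn1 : n - 1 + 1 = n := by omega
  rw [hn1] at hcn1
  rcases Nat.le_one_iff_eq_zero_or_eq_one.mp hz0le with h0 | h0
  · left
    intro i
    rcases i with t | t | t
    · rw [hc, Hc t (by omega), h0]; simp
    · rw [hd]
      have h1 := Ew t (by omega)
      rw [Hc t (by omega), h0] at h1
      omega
    · subst h0
      fin_cases t
      · exact hz0
      · show z (Sum.inr (Sum.inr 1)) = 0
        rw [hz1]; omega
      · show z (Sum.inr (Sum.inr 2)) = 0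
        rw [hz2]; omega
  · right
    intro i
    rcases i with t | t | t
    · rw [hc, Hc t (by omega), h0]; rfl
    · rw [hd]
      have h1 := Ew t (by omega)
      rw [Hc t (by omega), h0] at h1
      show d t = Nat.fib (t + 1)
      omega
    · subst h0
      fin_cases t
      · exact hz0
      · show z (Sum.inr (Sum.inr 1)) = Nat.fib (n + 2)
        rw [hz1]; omega
      · show z (Sum.inr (Sum.inr 2)) = Nat.fib (n + 1)
        rw [hz2]; omega

end Rigid

end Pool.Agent.Work.MP_ebd967_ag
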